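import Pool.Agent.H7.TRI.Stmts

/-! Board tri (helper7, MP_fd41b2), row MIS. -/

set_option autoImplicit false

open Finset

namespace Pool.TRI

theorem MIS_thm : MISStmt := by
  intro V _ A R _ q hsymm hq
  classical
  let P : Finset V → Prop := fun I => ∀ a ∈ I, ∀ b ∈ I, a ≠ b → ¬ R a b
  have hne : (A.powerset.filter P).Nonempty := ⟨∅, by
    rw [mem_filter]
    exact ⟨mem_powerset.2 (empty_subset A), fun a ha => absurd ha (notMem_empty a)⟩⟩
  obtain ⟨I, hI, hmax⟩ := exists_max_image (A.powerset.filter P) card hne
  rw [mem_filter, mem_powerset] at hI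
  obtain ⟨hIA, hIP⟩ := hI
  refine ⟨I, hIA, hIP, ?_⟩
  have hcov : A \ I ⊆ I.biUnion (fun b => A.filter (fun a => R b a)) := by
    intro a ha
    rw [mem_sdiff] at ha
    rw [mem_biUnion]
    by_contra hcon
    push Not at hcon
    have hno : ∀ b ∈ I, ¬ R b a := by
      intro b hb hR
      exact hcon b hb (mem_filter.2 ⟨ha.1, hR⟩)
    have hins : insert a I ∈ A.powerset.filter P := by
      rw [mem_filter, mem_powerset]
      refine ⟨insert_subset ha.1 hIA, ?_⟩
      intro u hu v hv huv
      rw [mem_insert] at hu hv
      rcases hu with rfl | hu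
      · rcases hv with rfl | hv
        · exact absurd rfl huv
        · exact fun h => hno v hv (hsymm _ _ h)
      · rcases hv with rfl | hv
        · exact hno u hu
        · exact hIP u hu v hv huv
    have h1 := hmax _ hins
    rw [card_insert_of_notMem ha.2] at h1
    omega
  have h1 : (A \ I).card ≤ I.card * q := by
    refine (card_le_card hcov).trans (card_biUnion_le_card_mul _ _ _ ?_)
    intro b hb
    exact hq b (hIA hb)
  have h2 : (A \ I).card + I.card = A.card := card_sdiff_add_card_eq_card hIA
  nlinarith [h1, h2]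

end Pool.TRI
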