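import Pool.Agent.H7.TRI.Stmts

/-! Board tri (helper7, MP_fd41b2), row RET. -/

set_option autoImplicit false

open Finset

namespace Pool.TRI

theorem RET_thm (hPUN : PUNStmt) (hLKB : LKBStmt) (hOUT : OUTStmt) (hDSJ : DSJStmt)
    (hETB : ETBStmt) (hRCH : RCHStmt) : RETStmt := by
  intro V _ _ G d m hH C hC y hy
  classical
  obtain ⟨U, p, hUnb, hpay, hU⟩ := hPUN V G d m hH y
  obtain ⟨-, hSX, hS2, -, -, -, -, -⟩ := hRCH V G d m hH C hC
  obtain ⟨-, hout1, hout2, -⟩ := hOUT V G d m hH C hC y hy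
  have hyC : y ∈ C := (mem_XX.1 hy).1
  have hsx : sg G C + xx G C = (d : ℤ) := by
    unfold sg xx
    have : ((SS G C).card : ℤ) + ((XX G C).card : ℤ) = (d : ℤ) + 1 := by exact_mod_cast hSX
    linarith
  have hs1 : 1 ≤ sg G C := by
    unfold sg
    have : (2 : ℤ) ≤ ((SS G C).card : ℤ) := by exact_mod_cast hS2
    linarith
  have hk : ((nb G y \ C).card : ℤ) ≤ (df G C y : ℤ) := by exact_mod_cast hout1
  -- facts about the members of `U`
  have hfacts : ∀ u ∈ U, u ∉ C ∧ ∃ C' ∈ RC G d, y ∉ C' ∧ u ∈ Iso G C' ∧ p u = lk G d C' u ∧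
      Disjoint C C' := by
    intro u hu
    obtain ⟨C', hC', hyC', huI, hpu⟩ := hU u hu
    have hne : C ≠ C' := fun h => hyC' (h ▸ hyC)
    have hdis := hDSJ V G d m hH C hC C' hC' hne
    refine ⟨?_, C', hC', hyC', huI, hpu, hdis⟩
    exact Finset.disjoint_right.1 hdis (mem_Iso.1 huI).1
  have hUA : U ⊆ nb G y \ C := by
    intro u hu
    rw [mem_sdiff]
    exact ⟨hUnb hu, (hfacts u hu).1⟩
  have hsum : ∑ u ∈ U, p u = ∑ u ∈ nb G y \ C, (if u ∈ U then p u else 0) := by
    rw [Finset.sum_ite_mem, Finset.inter_eq_right.2 hUA]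
  have hmu0 : 0 ≤ mu (sg G C) (xx G C) (df G C y : ℤ) := by
    unfold mu
    exact le_min (by linarith) (le_max_left _ _)
  have hterm : ∀ u ∈ nb G y \ C,
      sg G C - mu (sg G C) (xx G C) (df G C y : ℤ) ≤
        (et G d y u - 1) - (if u ∈ U then p u else 0) := by
    intro u hu
    rw [mem_sdiff] at hu
    by_cases hUu : u ∈ U
    · rw [if_pos hUu]
      obtain ⟨-, C', hC', hyC', huI, hpu, hdis⟩ := hfacts u hUu
      have hadj : G.Adj u y := (mem_nb.1 hu.1).symm
      have hyu : y ∈ nb G u := mem_nb.2 hadj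
      obtain ⟨-, hl⟩ := hLKB V G d m hH C' hC' u huI
      obtain ⟨-, hl1, hl2, hl3⟩ := hl y hyu hyC'
      have hsym := (hETB V G d m hH u y hadj).2.2.1
      rw [hsym] at hl2 hl3
      rw [← hpu] at hl1 hl2
      have hc : ((nb G y ∩ XX G C').card : ℤ) ≤ ((nb G y \ C).card : ℤ) := by
        have hsub : nb G y ∩ XX G C' ⊆ nb G y \ C := by
          intro v hv
          rw [mem_inter] at hv
          rw [mem_sdiff]
          exact ⟨hv.1, Finset.disjoint_right.1 hdis (mem_XX.1 hv.2).1⟩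
        exact_mod_cast card_le_card hsub
      rcases min_choice (sg G C) (max 0 (3 * (df G C y : ℤ) - xx G C - 1)) with h | h
      · have : mu (sg G C) (xx G C) (df G C y : ℤ) = sg G C := h
        rw [this]
        linarith
      · have h1 : mu (sg G C) (xx G C) (df G C y : ℤ) =
            max 0 (3 * (df G C y : ℤ) - xx G C - 1) := h
        have h2 := le_max_right 0 (3 * (df G C y : ℤ) - xx G C - 1)
        rw [h1]
        linarith
    · rw [if_neg hUu]
      have h1 := hout2 u hu.1 hu.2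
      have h2 : sg G C + 1 ≤ et G d y u := by
        unfold sg
        linarith
      linarith
  have h1 : ((nb G y \ C).card : ℤ) * (sg G C - mu (sg G C) (xx G C) (df G C y : ℤ)) ≤
      ∑ u ∈ nb G y \ C, ((et G d y u - 1) - (if u ∈ U then p u else 0)) := by
    have h2 := Finset.card_nsmul_le_sum (nb G y \ C)
      (fun u => (et G d y u - 1) - (if u ∈ U then p u else 0)) _ hterm
    rwa [nsmul_eq_mul] at h2
  rw [Finset.sum_sub_distrib, ← hsum, ← hpay] at h1
  exact h1

end Pool.TRI
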